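import Mathlib
import Pool.Agent.Results.MP_0b7501_nt.AllOrders

/-!
# Square products of factorials: an asymptotic formula for `N_3(n)`

`D_3` consists, up to `O(n ^ 0.499)` integers below `n`, of the integers `f s ^ 2` where `f > 1` is the
squarefree part of a factorial. So `N_3(n) = κ √n + O(n ^ 0.499)` with `κ = ∑ 1 / √f`. The exceptional
integers and the orders of growth for `k = 4, 5, 6` are taken from the starting files.
-/

set_option autoImplicit false

namespace Pool.Agent.Results.MP_0b7501_nt.AsymptoticThree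

open Finset

/-- `m` has a representation of length `k`: a set of `k` positive integers with largest element
`m` such that the product of the factorials of its elements is a perfect square. -/
def HasRep (m k : ℕ) : Prop :=
  ∃ s : Finset ℕ, s.card = k ∧ m ∈ s ∧ (∀ a ∈ s, 1 ≤ a ∧ a ≤ m) ∧
    IsSquare (∏ a ∈ s, a.factorial)

/-- `m ∈ D_k`: the least `j ≥ 2` for which `m` has a representation of length `j` is `k`. -/
def InD (k m : ℕ) : Prop :=
  2 ≤ k ∧ HasRep m k ∧ ∀ j, 2 ≤ j → j < k → ¬ HasRep m j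

open Classical in
/-- the counting function `N_k(n)` of `D_k` -/
noncomputable def N (k n : ℕ) : ℕ := ((Finset.Icc 1 n).filter (fun m => InD k m)).card

/-- the squarefree parts `f > 1` of the factorials -/
def Fs : Set ℕ := {f | 1 < f ∧ Squarefree f ∧ ∃ c : ℕ, IsSquare (f * c.factorial)}

/-- the constant `κ`, the sum of `1 / √f` over the squarefree parts `f > 1` of the factorials -/
noncomputable def kappa : ℝ := ∑' f : Fs, 1 / Real.sqrt ((f : ℕ) : ℝ)

/-- the number of squarefree integers in `[1, n]` -/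
noncomputable def Q (n : ℕ) : ℕ := ((Finset.Icc 1 n).filter (fun m => Squarefree m)).card

theorem N_eq (k n : ℕ) : N k n = AllOrders.N k n := rfl

open AllOrders (isSquare_of_mul_sq)
open Pool.Agent.Helper153.Fac (Bad)

lemma eq_of_isSquare_mul {f g : ℕ} (hf : Squarefree f) (hg : Squarefree g)
    (h : IsSquare (f * g)) : f = g := by
  obtain ⟨r, hr⟩ := h
  have hf0 : 0 < f := Nat.pos_of_ne_zero hf.ne_zero
  have h1 : f ∣ r := by
    have : f ∣ r ^ 2 := ⟨g, by rw [pow_two, ← hr]⟩
    exact (hf.dvd_pow_iff_dvd (by norm_num)).1 this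
  obtain ⟨w, rfl⟩ := h1
  have h2 : g = f * (w * w) := by
    apply Nat.eq_of_mul_eq_mul_left hf0
    rw [hr]
    ring
  have h3 : IsUnit w := hg w ⟨f, by rw [h2]; ring⟩
  rw [Nat.isUnit_iff] at h3
  rw [h2, h3]
  ring

lemma sf_unique {f g s t : ℕ} (hf : Squarefree f) (hg : Squarefree g) (hs : s ≠ 0)
    (h : f * s ^ 2 = g * t ^ 2) : f = g := by
  apply eq_of_isSquare_mul hf hg
  apply isSquare_of_mul_sq (b := s) hs
  refine ⟨g * t, ?_⟩
  calc f * g * (s * s) = g * (f * s ^ 2) := by ring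
    _ = g * t * (g * t) := by rw [h]; ring

/-- the growth of the squarefree parts -/
theorem growth : ∃ κ : ℝ, 0 < κ ∧ ∃ A : ℕ, ∀ c f : ℕ, A ≤ c → Squarefree f →
    IsSquare (f * c.factorial) → κ * c ≤ Real.log f := by
  obtain ⟨κ, hκ, A, hA⟩ := Pool.Agent.Helper601.theta_half
  refine ⟨κ, hκ, A, fun c f hc hf hsq => ?_⟩
  obtain ⟨a, ha, hlog, h⟩ := Pool.Agent.Helper153.One.exists_part c
  obtain ⟨w, hw⟩ := h f hsq
  have h3 : IsUnit w := hf w ⟨a, by rw [hw]; ring⟩
  rw [Nat.isUnit_iff] at h3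
  have h4 : f = a := by rw [hw, h3]; ring
  rw [h4]
  exact (hA c hc).trans hlog

open Classical in
/-- an index of the factorial -/
noncomputable def idx (f : ℕ) : ℕ := if h : ∃ c : ℕ, IsSquare (f * c.factorial) then h.choose else 0

lemma idx_spec {f : ℕ} (h : f ∈ Fs) : IsSquare (f * (idx f).factorial) := by
  unfold idx
  rw [dif_pos h.2.2]
  exact h.2.2.choose_spec

lemma idx_inj {f g : ℕ} (hf : f ∈ Fs) (hg : g ∈ Fs) (h : idx f = idx g) : f = g := by
  apply eq_of_isSquare_mul hf.2.1 hg.2.1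
  apply isSquare_of_mul_sq (b := (idx f).factorial) (Nat.factorial_ne_zero _)
  obtain ⟨r, hr⟩ := idx_spec hf
  obtain ⟨s, hs⟩ := idx_spec hg
  rw [← h] at hs
  refine ⟨r * s, ?_⟩
  calc f * g * ((idx f).factorial * (idx f).factorial)
      = (f * (idx f).factorial) * (g * (idx f).factorial) := by ring
    _ = _ := by rw [hr, hs]; ring

/-- summability of `f ^ (-1/4)` -/
theorem summable_quarter : Summable (fun f : Fs => (((f : ℕ) : ℝ)) ^ (-(1 / 4) : ℝ)) := by
  obtain ⟨κ, hκ, A, hA⟩ := growth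
  set g : ℕ → ℝ := fun c => Real.exp (κ * A / 4) * Real.exp (-(κ / 4)) ^ c with hg
  have hgs : Summable g := by
    apply Summable.mul_left
    apply summable_geometric_of_lt_one (Real.exp_pos _).le
    rw [Real.exp_lt_one_iff]
    linarith
  have hinj : Function.Injective (fun f : Fs => idx (f : ℕ)) := by
    intro f g h
    exact Subtype.ext (idx_inj f.2 g.2 h)
  have h1 := hgs.comp_injective hinj
  refine Summable.of_nonneg_of_le (fun f => Real.rpow_nonneg (Nat.cast_nonneg _) _) (fun f => ?_) h1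
  show ((f : ℕ) : ℝ) ^ (-(1 / 4) : ℝ) ≤ g (idx f)
  have hf1 : (1 : ℝ) < ((f : ℕ) : ℝ) := by exact_mod_cast f.2.1
  have hf0 : (0 : ℝ) < ((f : ℕ) : ℝ) := by linarith
  have hgc : g (idx f) = Real.exp (-(κ * ((idx f : ℕ) - (A : ℝ)) / 4)) := by
    simp only [hg]
    rw [← Real.exp_nat_mul, ← Real.exp_add]
    congr 1
    ring
  rw [hgc, Real.rpow_def_of_pos hf0]
  apply Real.exp_le_exp.2
  have hlog : 0 ≤ Real.log ((f : ℕ) : ℝ) := Real.log_nonneg hf1.le
  by_cases hc : A ≤ idx f
  · have h2 := hA (idx f) f hc f.2.2.1 (idx_spec f.2)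
    have hA0 : (0 : ℝ) ≤ κ * A := by positivity
    linarith
  · have h3 : ((idx f : ℕ) : ℝ) ≤ A := by exact_mod_cast (not_le.1 hc).le
    have h4 : κ * ((idx f : ℕ) - (A : ℝ)) ≤ 0 :=
      mul_nonpos_of_nonneg_of_nonpos hκ.le (by linarith)
    linarith

lemma half_le_quarter {x : ℝ} (hx : 1 ≤ x) : 1 / Real.sqrt x ≤ x ^ (-(1 / 4) : ℝ) := by
  have hx0 : (0 : ℝ) ≤ x := by linarith
  rw [Real.sqrt_eq_rpow, one_div, ← Real.rpow_neg hx0]
  exact Real.rpow_le_rpow_of_exponent_le hx (by norm_num)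

theorem summable_half : Summable (fun f : Fs => 1 / Real.sqrt ((f : ℕ) : ℝ)) := by
  refine Summable.of_nonneg_of_le (fun f => by positivity) (fun f => ?_) summable_quarter
  exact half_le_quarter (by exact_mod_cast f.2.1.le)

/-- one value -/
lemma sqrt_diff (n f : ℕ) (hn : 1 ≤ n) (hf : 1 ≤ f) :
    |(Nat.sqrt (n / f) : ℝ) - 1 / Real.sqrt f * Real.sqrt n| ≤
      (f : ℝ) ^ (-(1 / 4) : ℝ) * (n : ℝ) ^ (1 / 4 : ℝ) := by
  have hf0 : (0 : ℝ) < f := by exact_mod_cast hf
  have hn0 : (0 : ℝ) < n := by exact_mod_cast hn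
  have hx0 : (0 : ℝ) < (n : ℝ) / f := div_pos hn0 hf0
  have e1 : 1 / Real.sqrt f * Real.sqrt n = Real.sqrt ((n : ℝ) / f) := by
    rw [Real.sqrt_div hn0.le]
    ring
  have e2 : (f : ℝ) ^ (-(1 / 4) : ℝ) * (n : ℝ) ^ (1 / 4 : ℝ) = ((n : ℝ) / f) ^ (1 / 4 : ℝ) := by
    rw [Real.div_rpow hn0.le hf0.le, Real.rpow_neg hf0.le]
    ring
  rw [e1, e2]
  have h1 : (Nat.sqrt (n / f) : ℝ) ≤ Real.sqrt ((n : ℝ) / f) :=
    Real.nat_sqrt_le_real_sqrt.trans (Real.sqrt_le_sqrt Nat.cast_div_le)
  rw [abs_sub_comm, abs_of_nonneg (by linarith)]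
  by_cases hfn : f ≤ n
  · have h2 : Real.sqrt ((n : ℝ) / f) ≤ (Nat.sqrt (n / f) : ℝ) + 1 := by
      rw [Real.sqrt_le_left (by positivity), div_le_iff₀ hf0]
      have h3 : n / f < (Nat.sqrt (n / f) + 1) * (Nat.sqrt (n / f) + 1) :=
        Nat.lt_succ_sqrt (n / f)
      have h4 : n < (Nat.sqrt (n / f) + 1) * (Nat.sqrt (n / f) + 1) * f :=
        (Nat.div_lt_iff_lt_mul hf).1 h3
      have h5 : (n : ℝ) < ((Nat.sqrt (n / f) : ℝ) + 1) * ((Nat.sqrt (n / f) : ℝ) + 1) * f := by
        exact_mod_cast h4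
      rw [pow_two]
      exact h5.le
    have h6 : (1 : ℝ) ≤ ((n : ℝ) / f) ^ (1 / 4 : ℝ) := by
      apply Real.one_le_rpow _ (by norm_num)
      rw [le_div_iff₀ hf0, one_mul]
      exact_mod_cast hfn
    linarith
  · have h2 : (n : ℝ) / f ≤ 1 := by
      rw [div_le_one hf0]
      exact_mod_cast (not_le.1 hfn).le
    have h3 : Real.sqrt ((n : ℝ) / f) ≤ ((n : ℝ) / f) ^ (1 / 4 : ℝ) := by
      rw [Real.sqrt_eq_rpow]
      exact Real.rpow_le_rpow_of_exponent_ge hx0 h2 (by norm_num)
    have h4 : (0 : ℝ) ≤ (Nat.sqrt (n / f) : ℝ) := Nat.cast_nonneg _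
    linarith

open Classical in
/-- the integers `f * s ^ 2` with `f` in `Fs` -/
noncomputable def AA (n : ℕ) : Finset ℕ :=
  (Finset.Icc 1 n).filter (fun m => ∃ f ∈ Fs, ∃ s : ℕ, m = f * s ^ 2)

theorem card_AA (n : ℕ) : ((AA n).card : ℝ) = ∑' f : Fs, (Nat.sqrt (n / (f : ℕ)) : ℝ) := by
  classical
  have h1 : AA n = ((Finset.Icc 1 n).filter (fun f => f ∈ Fs)).biUnion
      (fun f => (Finset.Icc 1 (Nat.sqrt (n / f))).image (fun s => f * s ^ 2)) := by
    ext m
    unfold AA
    simp only [Finset.mem_filter, Finset.mem_Icc, Finset.mem_biUnion, Finset.mem_image]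
    constructor
    · rintro ⟨⟨h1, h2⟩, f, hf, s, rfl⟩
      have hs : 1 ≤ s := by
        rcases Nat.eq_zero_or_pos s with h | h
        · rw [h] at h1
          simp at h1
        · exact h
      have hf1 : 1 ≤ f := hf.1.le
      have hs2 : 1 ≤ s ^ 2 := Nat.one_le_pow _ _ hs
      refine ⟨f, ⟨⟨hf1, by nlinarith⟩, hf⟩, s, ⟨hs, ?_⟩, rfl⟩
      rw [Nat.le_sqrt', Nat.le_div_iff_mul_le hf1]
      linarith [mul_comm (s ^ 2) f]
    · rintro ⟨f, ⟨⟨h1, h2⟩, hf⟩, s, ⟨h3, h4⟩, rfl⟩
      rw [Nat.le_sqrt', Nat.le_div_iff_mul_le h1] at h4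
      have hs2 : 1 ≤ s ^ 2 := Nat.one_le_pow _ _ h3
      exact ⟨⟨by nlinarith, by linarith [mul_comm (s ^ 2) f]⟩, f, hf, s, rfl⟩
  have h2 : (AA n).card = ∑ f ∈ (Finset.Icc 1 n).filter (fun f => f ∈ Fs),
      Nat.sqrt (n / f) := by
    rw [h1, Finset.card_biUnion]
    · refine Finset.sum_congr rfl fun f hf => ?_
      have hf1 : 1 ≤ f := (Finset.mem_Icc.1 (Finset.mem_filter.1 hf).1).1
      rw [Finset.card_image_of_injOn]
      · simp
      · intro a _ b _ hab
        simp only at hab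
        exact Nat.pow_left_injective (n := 2) (by norm_num) (Nat.eq_of_mul_eq_mul_left hf1 hab)
    · intro f hf g hg hfg
      rw [Function.onFun, Finset.disjoint_left]
      intro m hm hm'
      rw [Finset.mem_image] at hm hm'
      obtain ⟨s, hs, rfl⟩ := hm
      obtain ⟨t, ht, h⟩ := hm'
      rw [Finset.mem_Icc] at hs ht
      exact hfg (sf_unique (Finset.mem_filter.1 hf).2.2.1 (Finset.mem_filter.1 hg).2.2.1
        (by omega) h.symm)
  rw [h2, tsum_subtype Fs (fun f : ℕ => (Nat.sqrt (n / f) : ℝ)),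
    tsum_eq_sum (s := Finset.Icc 1 n)]
  · rw [Finset.sum_filter]
    push_cast
    refine Finset.sum_congr rfl fun f _ => ?_
    by_cases hf : f ∈ Fs
    · rw [if_pos hf, Set.indicator_of_mem hf]
    · rw [if_neg hf, Set.indicator_of_notMem hf]
  · intro f hf
    by_cases hf' : f ∈ Fs
    · rw [Set.indicator_of_mem hf']
      have h3 : n < f := by
        rw [Finset.mem_Icc] at hf
        have := hf'.1
        omega
      rw [Nat.div_eq_of_lt h3]
      simp
    · rw [Set.indicator_of_notMem hf']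

theorem count_A : ∃ C : ℝ, 0 ≤ C ∧ ∀ n : ℕ, 1 ≤ n →
    |((AA n).card : ℝ) - kappa * Real.sqrt n| ≤ C * (n : ℝ) ^ (1 / 4 : ℝ) := by
  refine ⟨∑' f : Fs, (((f : ℕ) : ℝ)) ^ (-(1 / 4) : ℝ),
    tsum_nonneg fun f => Real.rpow_nonneg (Nat.cast_nonneg _) _, fun n hn => ?_⟩
  have hs2 : Summable (fun f : Fs => 1 / Real.sqrt ((f : ℕ) : ℝ) * Real.sqrt n) :=
    summable_half.mul_right _
  have hs1 : Summable (fun f : Fs => (Nat.sqrt (n / (f : ℕ)) : ℝ)) := by
    refine Summable.of_nonneg_of_le (fun f => Nat.cast_nonneg _) (fun f => ?_) hs2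
    have hf0 : (0 : ℝ) < ((f : ℕ) : ℝ) := by exact_mod_cast (lt_trans one_pos f.2.1)
    have hn0 : (0 : ℝ) < n := by exact_mod_cast hn
    have e1 : 1 / Real.sqrt ((f : ℕ) : ℝ) * Real.sqrt n = Real.sqrt ((n : ℝ) / ((f : ℕ) : ℝ)) := by
      rw [Real.sqrt_div hn0.le]
      ring
    rw [e1]
    exact Real.nat_sqrt_le_real_sqrt.trans (Real.sqrt_le_sqrt Nat.cast_div_le)
  rw [card_AA, kappa, ← tsum_mul_right, ← hs1.tsum_sub hs2, ← Real.norm_eq_abs]
  refine tsum_of_norm_bounded (summable_quarter.hasSum.mul_right _) fun f => ?_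
  rw [Real.norm_eq_abs]
  exact sqrt_diff n f hn f.2.1.le

/-! ### the integers of `AA n` and `D_3` -/

lemma one_mod {f c : ℕ} (hf : f ∈ Fs) (hsq : IsSquare (f * c.factorial)) : 2 ≤ c := by
  by_contra hc
  have h1 : c.factorial = 1 := by
    have : c = 0 ∨ c = 1 := by omega
    rcases this with rfl | rfl <;> rfl
  rw [h1, mul_one] at hsq
  have h2 : f = 1 := by
    apply eq_of_isSquare_mul hf.2.1 squarefree_one
    rwa [mul_one]
  have := hf.1
  omega

/-- integers of the form `f s ^ 2` are in `D_3` or exceptional -/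
theorem mem_three {m f s c : ℕ} (hf : f ∈ Fs) (hsq : IsSquare (f * c.factorial))
    (hm : m = f * s ^ 2) (hs : s ≠ 0) (hc : c + 2 ≤ m)
    (hbad : ¬ ∃ t c : ℕ, Bad m t c) : InD 3 m := by
  have hc2 := one_mod hf hsq
  refine ⟨by norm_num, ?_, ?_⟩
  · refine ⟨{c, m - 1, m}, ?_, by simp, ?_, ?_⟩
    · rw [Finset.card_eq_three]
      exact ⟨c, m - 1, m, by omega, by omega, by omega, rfl⟩
    · intro a ha
      simp only [Finset.mem_insert, Finset.mem_singleton] at ha
      rcases ha with rfl | rfl | rfl <;> omega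
    · rw [Finset.prod_insert (by simp only [Finset.mem_insert, Finset.mem_singleton]; omega),
        Finset.prod_pair (by omega)]
      obtain ⟨k, hk⟩ : ∃ k, m = k + 1 := ⟨m - 1, by omega⟩
      obtain ⟨r, hr⟩ := hsq
      rw [show m - 1 = k by omega]
      refine ⟨r * s * k.factorial, ?_⟩
      have h1 : m.factorial = m * k.factorial := by
        conv_lhs => rw [hk]
        rw [Nat.factorial_succ, ← hk]
      rw [h1]
      calc c.factorial * (k.factorial * (m * k.factorial))
          = c.factorial * m * (k.factorial * k.factorial) := by ring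
        _ = (f * c.factorial) * (s * s) * (k.factorial * k.factorial) := by rw [hm]; ring
        _ = _ := by rw [hr]; ring
  · intro j hj2 hj3 hrep
    have hj : j = 2 := by omega
    subst hj
    obtain ⟨b, hb1, hbm, hsq2⟩ := AllOrders.rep_two hrep
    by_cases hb : b + 1 = m
    · have h1 : IsSquare (m * Nat.factorial 0) := by
        apply AllOrders.block_one hb
        simpa using hsq2
      rw [Nat.factorial_zero, mul_one, hm] at h1
      have h2 : IsSquare f := by
        apply isSquare_of_mul_sq (b := s) hs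
        rw [← pow_two]; exact h1
      have h3 : f = 1 := by
        apply eq_of_isSquare_mul hf.2.1 squarefree_one
        rwa [mul_one]
      have := hf.1
      omega
    · refine hbad ⟨m - b, 0, by omega, by omega, ?_⟩
      rw [show m - (m - b) = b by omega, Nat.factorial_zero, mul_one]
      exact hsq2

/-- `m` is bounded if the factorial is too large -/
theorem small_m : ∃ M₀ : ℕ, ∀ m f s c : ℕ, f ∈ Fs → IsSquare (f * c.factorial) →
    m = f * s ^ 2 → s ≠ 0 → m < c + 2 → m ≤ M₀ := by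
  obtain ⟨κ, hκ, A, hA⟩ := growth
  refine ⟨A + ⌈2 / κ ^ 2⌉₊ + 1, fun m f s c hf hsq hm hs hmc => ?_⟩
  by_contra hlt
  have h1 : A ≤ c := by omega
  have h2 := hA c f h1 hf.2.1 hsq
  have hf0 : (0 : ℝ) < f := by exact_mod_cast (lt_trans one_pos hf.1)
  have h3 : f ≤ m := by
    rw [hm]
    exact Nat.le_mul_of_pos_right f (Nat.pos_of_ne_zero (pow_ne_zero 2 hs))
  have h4 : (f : ℝ) ≤ c + 1 := by
    have : f ≤ c + 1 := by omega
    exact_mod_cast this
  have h5 : Real.exp (κ * c) ≤ c + 1 := by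
    rw [← Real.exp_log hf0] at h4
    exact (Real.exp_le_exp.2 h2).trans h4
  have hc0 : (0 : ℝ) ≤ c := Nat.cast_nonneg _
  have h6 := Real.quadratic_le_exp_of_nonneg (x := κ * c) (by positivity)
  have h7 : 2 / κ ^ 2 < c := by
    refine lt_of_le_of_lt (Nat.le_ceil _) ?_
    have : ⌈2 / κ ^ 2⌉₊ < c := by omega
    exact_mod_cast this
  rw [div_lt_iff₀ (by positivity)] at h7
  have h8 : (0 : ℝ) < c := by
    have : 0 < c := by omega
    exact_mod_cast this
  have h9 : (c : ℝ) * 2 < c * (c * κ ^ 2) := mul_lt_mul_of_pos_left h7 h8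
  have h10 : 0 < κ * c := by positivity
  nlinarith

/-- the asymptotic formula for `N_3` -/
theorem asymp_three : ∃ C : ℝ, 0 < C ∧ ∀ n : ℕ, 1 ≤ n →
    |(N 3 n : ℝ) - kappa * Real.sqrt n| ≤ C * (n : ℝ) ^ (499 / 1000 : ℝ) := by
  classical
  obtain ⟨C₁, hC₁, h₁⟩ := count_A
  obtain ⟨C₂, hC₂, h₂⟩ := Pool.Agent.Helper153.Fac.bad_count
  obtain ⟨M₀, hM⟩ := small_m
  refine ⟨C₁ + C₂ + M₀, by positivity, fun n hn => ?_⟩
  set S := (Finset.Icc 1 n).filter (fun m => InD 3 m) with hS
  set B := (Finset.Icc 1 n).filter (fun m => ∃ t c : ℕ, Bad m t c) with hB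
  have hBc := h₂ n B (fun m hm => by
    rw [hB, Finset.mem_filter, Finset.mem_Icc] at hm
    exact ⟨hm.1.1, hm.1.2, hm.2⟩)
  have hN : N 3 n = S.card := by
    unfold N
    rw [hS]
  have sub1 : S ⊆ AA n ∪ B := by
    intro m hm
    rw [hS, Finset.mem_filter] at hm
    obtain ⟨hmn, -, h3, h4⟩ := hm
    obtain ⟨c, b, hc, hcb, hbm, hsq⟩ := AllOrders.rep_three h3
    rw [Finset.mem_union]
    by_cases hb : b + 1 = m
    · left
      have h5 : IsSquare (m * c.factorial) := AllOrders.block_one hb hsq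
      obtain ⟨f, s, hfs, hsf⟩ := Nat.sq_mul_squarefree m
      have hs : s ≠ 0 := by
        rintro rfl
        simp at hfs
        omega
      refine Finset.mem_filter.2 ⟨hmn, f, ⟨?_, hsf, c, ?_⟩, s, by rw [← hfs]; ring⟩
      · by_contra hf
        have hf1 : f = 1 := by
          have := Nat.pos_of_ne_zero hsf.ne_zero
          omega
        rw [hf1, mul_one] at hfs
        apply h4 2 le_rfl (by norm_num)
        refine ⟨{m - 1, m}, Finset.card_pair (by omega), by simp, ?_, ?_⟩
        · intro a ha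
          simp only [Finset.mem_insert, Finset.mem_singleton] at ha
          rcases ha with rfl | rfl <;> omega
        · rw [Finset.prod_pair (by omega)]
          obtain ⟨k, hk⟩ : ∃ k, m = k + 1 := ⟨m - 1, by omega⟩
          have e1 : m.factorial = m * k.factorial := by
            conv_lhs => rw [hk]
            rw [Nat.factorial_succ, ← hk]
          rw [show m - 1 = k by omega, e1, ← hfs]
          exact ⟨s * k.factorial, by ring⟩
      · apply isSquare_of_mul_sq (b := s) hs
        convert h5 using 1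
        rw [← hfs]
        ring
    · right
      refine Finset.mem_filter.2 ⟨hmn, m - b, c, by omega, by omega, ?_⟩
      rw [show m - (m - b) = b by omega]
      exact hsq
  have sub2 : AA n ⊆ (S ∪ B) ∪ Finset.Icc 1 M₀ := by
    intro m hm
    unfold AA at hm
    rw [Finset.mem_filter] at hm
    obtain ⟨hmn, f, hf, s, hms⟩ := hm
    have hs : s ≠ 0 := by
      rintro rfl
      rw [hms, Finset.mem_Icc] at hmn
      simp at hmn
    obtain ⟨c, hc⟩ := hf.2.2
    rw [Finset.mem_union, Finset.mem_union]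
    by_cases hcm : c + 2 ≤ m
    · left
      by_cases hbad : ∃ t c : ℕ, Bad m t c
      · exact Or.inr (Finset.mem_filter.2 ⟨hmn, hbad⟩)
      · exact Or.inl (Finset.mem_filter.2 ⟨hmn, mem_three hf hc hms hs hcm hbad⟩)
    · right
      exact Finset.mem_Icc.2 ⟨(Finset.mem_Icc.1 hmn).1, hM m f s c hf hc hms hs (by omega)⟩
  have c1 : (S.card : ℝ) ≤ (AA n).card + B.card := by
    exact_mod_cast (Finset.card_le_card sub1).trans (Finset.card_union_le _ _)
  have c2 : ((AA n).card : ℝ) ≤ S.card + B.card + M₀ := by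
    have h5 := (Finset.card_le_card sub2).trans (Finset.card_union_le _ _)
    have h6 := Finset.card_union_le S B
    rw [Nat.card_Icc, Nat.add_sub_cancel] at h5
    exact_mod_cast (show (AA n).card ≤ S.card + B.card + M₀ by omega)
  have hn1 : (1 : ℝ) ≤ n := by exact_mod_cast hn
  have h7 : (n : ℝ) ^ (1 / 4 : ℝ) ≤ (n : ℝ) ^ (499 / 1000 : ℝ) :=
    Real.rpow_le_rpow_of_exponent_le hn1 (by norm_num)
  have h8 : (1 : ℝ) ≤ (n : ℝ) ^ (499 / 1000 : ℝ) := Real.one_le_rpow hn1 (by norm_num)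
  have h9 := h₁ n hn
  rw [abs_le] at h9
  have h10 : C₁ * (n : ℝ) ^ (1 / 4 : ℝ) ≤ C₁ * (n : ℝ) ^ (499 / 1000 : ℝ) :=
    mul_le_mul_of_nonneg_left h7 hC₁
  have h11 : (M₀ : ℝ) ≤ M₀ * (n : ℝ) ^ (499 / 1000 : ℝ) :=
    le_mul_of_one_le_right (Nat.cast_nonneg _) h8
  rw [hN, abs_le]
  constructor <;> linarith [h9.1, h9.2]

/-- integers which are not squarefree are in `D_4`, with few exceptions -/
theorem lower_four : ∃ C : ℝ, 0 < C ∧ ∀ n : ℕ, 1 ≤ n →
    (n : ℝ) - Q n - C * Real.sqrt n ≤ N 4 n := by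
  classical
  obtain ⟨C₁, hC₁, h₁⟩ := Pool.Agent.Helper153.One.count_one Pool.Agent.Helper601.theta_half
  obtain ⟨C₂, hC₂, h₂⟩ := Pool.Agent.Helper153.Fac.bad_count
  refine ⟨C₁ + C₂, by positivity, fun n hn => ?_⟩
  set S := (Finset.Icc 1 n).filter (fun m => InD 4 m) with hS
  set B := (Finset.Icc 1 n).filter (fun m => ∃ t c : ℕ, Bad m t c) with hB
  set E := (Finset.Icc 1 n).filter (fun m => ∃ c : ℕ, IsSquare (m * c.factorial)) with hE
  have hBc := h₂ n B (fun m hm => by
    rw [hB, Finset.mem_filter, Finset.mem_Icc] at hm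
    exact ⟨hm.1.1, hm.1.2, hm.2⟩)
  have hEc := h₁ n E (fun m hm => by
    rw [hE, Finset.mem_filter, Finset.mem_Icc] at hm
    exact ⟨hm.1.1, hm.1.2, hm.2⟩)
  have hN : N 4 n = S.card := by
    unfold N
    rw [hS]
  have hU : Q n + ((Finset.Icc 1 n).filter (fun m => ¬ Squarefree m)).card = n := by
    unfold Q
    have h3 := Finset.card_filter_add_card_filter_not (s := Finset.Icc 1 n)
      (fun m : ℕ => Squarefree m)
    rw [Nat.card_Icc, Nat.add_sub_cancel] at h3
    convert h3
  have sub : (Finset.Icc 1 n).filter (fun m => ¬ Squarefree m) ⊆ S ∪ (E ∪ B) := by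
    intro m hm
    rw [Finset.mem_filter] at hm
    obtain ⟨hmn, hns⟩ := hm
    have hm1 := (Finset.mem_Icc.1 hmn).1
    rw [Finset.mem_union, Finset.mem_union]
    by_cases hEm : ∃ c : ℕ, IsSquare (m * c.factorial)
    · exact Or.inr (Or.inl (Finset.mem_filter.2 ⟨hmn, hEm⟩))
    by_cases hBm : ∃ t c : ℕ, Bad m t c
    · exact Or.inr (Or.inr (Finset.mem_filter.2 ⟨hmn, hBm⟩))
    left
    refine Finset.mem_filter.2 ⟨hmn, by norm_num, ?_, ?_⟩
    · unfold Squarefree at hns
      push Not at hns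
      obtain ⟨r, ⟨u, hu⟩, hr⟩ := hns
      rw [Nat.isUnit_iff] at hr
      have hr0 : r ≠ 0 := by
        rintro rfl
        simp at hu
        omega
      have hr2 : 2 ≤ r := by omega
      have hu0 : u ≠ 0 := by
        rintro rfl
        simp at hu
        omega
      have hu1 : u ≠ 1 := by
        rintro rfl
        apply hEm
        refine ⟨0, r, ?_⟩
        rw [hu, Nat.factorial_zero]
        ring
      have hu2 : 2 ≤ u := by omega
      have hrr : 4 ≤ r * r := by nlinarith
      have hbig : 4 * u ≤ m := by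
        rw [hu]
        exact Nat.mul_le_mul_right u hrr
      refine ⟨{u - 1, u, m - 1, m}, ?_, by simp, ?_, ?_⟩
      · rw [Finset.card_insert_of_notMem, Finset.card_insert_of_notMem, Finset.card_pair]
        · omega
        · simp only [Finset.mem_insert, Finset.mem_singleton]
          omega
        · simp only [Finset.mem_insert, Finset.mem_singleton]
          omega
      · intro a ha
        simp only [Finset.mem_insert, Finset.mem_singleton] at ha
        rcases ha with rfl | rfl | rfl | rfl <;> omega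
      · rw [Finset.prod_insert (by simp only [Finset.mem_insert, Finset.mem_singleton]; omega),
          Finset.prod_insert (by simp only [Finset.mem_insert, Finset.mem_singleton]; omega),
          Finset.prod_pair (by omega)]
        obtain ⟨k, hk⟩ : ∃ k, m = k + 1 := ⟨m - 1, by omega⟩
        obtain ⟨j, hj⟩ : ∃ j, u = j + 1 := ⟨u - 1, by omega⟩
        have e1 : m.factorial = m * k.factorial := by
          conv_lhs => rw [hk]
          rw [Nat.factorial_succ, ← hk]
        have e2 : u.factorial = u * j.factorial := by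
          conv_lhs => rw [hj]
          rw [Nat.factorial_succ, ← hj]
        rw [show m - 1 = k by omega, show u - 1 = j by omega, e1, e2]
        refine ⟨r * u * k.factorial * j.factorial, ?_⟩
        calc j.factorial * (u * j.factorial * (k.factorial * (m * k.factorial)))
            = u * m * (k.factorial * k.factorial) * (j.factorial * j.factorial) := by ring
          _ = _ := by
            conv_lhs => rw [hu]
            ring
    · intro j hj2 hj4 hrep
      have hj : j = 2 ∨ j = 3 := by omega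
      rcases hj with rfl | rfl
      · obtain ⟨b, hb1, hbm, hsq⟩ := AllOrders.rep_two hrep
        by_cases hb : b + 1 = m
        · apply hEm
          refine ⟨0, AllOrders.block_one hb ?_⟩
          simpa using hsq
        · refine hBm ⟨m - b, 0, by omega, by omega, ?_⟩
          rw [show m - (m - b) = b by omega, Nat.factorial_zero, mul_one]
          exact hsq
      · obtain ⟨c, b, hc, hcb, hbm, hsq⟩ := AllOrders.rep_three hrep
        by_cases hb : b + 1 = m
        · exact hEm ⟨c, AllOrders.block_one hb hsq⟩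
        · refine hBm ⟨m - b, c, by omega, by omega, ?_⟩
          rw [show m - (m - b) = b by omega]
          exact hsq
  have h5 := (Finset.card_le_card sub).trans (Finset.card_union_le _ _)
  have h6 := Finset.card_union_le E B
  have h7 : (n : ℝ) ≤ Q n + S.card + E.card + B.card := by
    exact_mod_cast (show n ≤ Q n + S.card + E.card + B.card by omega)
  have hn1 : (1 : ℝ) ≤ n := by exact_mod_cast hn
  have h8 : (n : ℝ) ^ (499 / 1000 : ℝ) ≤ Real.sqrt n := by
    rw [Real.sqrt_eq_rpow]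
    exact Real.rpow_le_rpow_of_exponent_le hn1 (by norm_num)
  have h9 := mul_le_mul_of_nonneg_left h8 hC₂.le
  rw [hN]
  linarith

lemma two_mem : 2 ∈ Fs := ⟨by norm_num, Nat.squarefree_two, 2, 2, rfl⟩

theorem kappa_pos : 0 < kappa := by
  unfold kappa
  apply summable_half.tsum_pos (fun f => by positivity) ⟨2, two_mem⟩
  positivity

/-- **The orders of growth of `N_3, N_4, N_5, N_6`, with an asymptotic formula for `N_3`.**
`N_3(n) = κ √n + O(n ^ 0.499)` where `κ` is the (convergent) sum of `1 / √f` over the squarefree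
parts `f > 1` of the factorials; `N_4(n)`, `N_5(n)`, `N_6(n)` are between `c n` and `n`; and `N_4(n)`
is at least the number of integers in `[1, n]` which are not squarefree, up to `O(√n)`. -/
theorem result :
    (Summable (fun f : Fs => 1 / Real.sqrt ((f : ℕ) : ℝ)) ∧ 0 < kappa) ∧
    (∃ C : ℝ, 0 < C ∧ ∀ n : ℕ, 1 ≤ n →
      |(N 3 n : ℝ) - kappa * Real.sqrt n| ≤ C * (n : ℝ) ^ (499 / 1000 : ℝ)) ∧
    (∀ k : ℕ, 4 ≤ k → k ≤ 6 → ∃ c : ℝ, 0 < c ∧ ∃ n₀ : ℕ, ∀ n : ℕ, n₀ ≤ n →
      c * n ≤ (N k n : ℝ) ∧ (N k n : ℝ) ≤ n) ∧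
    ∃ C : ℝ, 0 < C ∧ ∀ n : ℕ, 1 ≤ n → (n : ℝ) - Q n - C * Real.sqrt n ≤ N 4 n := by
  classical
  refine ⟨⟨summable_half, kappa_pos⟩, asymp_three, ?_, lower_four⟩
  intro k hk4 hk6
  obtain ⟨c, C, hc, -, n₀, h⟩ := AllOrders.result k (by omega) hk6
  refine ⟨c, hc, n₀, fun n hn => ⟨?_, ?_⟩⟩
  · have h1 := (h n hn).1
    unfold AllOrders.g at h1
    rw [if_neg (by omega)] at h1
    rw [N_eq]
    exact h1
  · unfold N
    have h2 := Finset.card_filter_le (Finset.Icc 1 n) (fun m => InD k m)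
    rw [Nat.card_Icc, Nat.add_sub_cancel] at h2
    exact_mod_cast h2

end Pool.Agent.Results.MP_0b7501_nt.AsymptoticThree
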